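import Pool.Agent.H68.L7.Ker

/-! Kernel computation. -/

set_option autoImplicit false
set_option maxRecDepth 100000

namespace Pool.Agent.H68.L7

theorem cb16 : ckb 16 256 = true := by decide +kernel
theorem cb17 : ckb 16 272 = true := by decide +kernel
theorem cb18 : ckb 16 288 = true := by decide +kernel
theorem cb19 : ckb 16 304 = true := by decide +kernel
theorem cb20 : ckb 16 320 = true := by decide +kernel
theorem cb21 : ckb 16 336 = true := by decide +kernel
theorem cb22 : ckb 16 352 = true := by decide +kernel
theorem cb23 : ckb 16 368 = true := by decide +kernel

end Pool.Agent.H68.L7
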