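import Pool.Agent.H68.L7.C1

/-! Kernel computation. -/

set_option autoImplicit false
set_option maxRecDepth 100000

namespace Pool.Agent.H68.L7

theorem cb40 : ckb 16 640 = true := by decide +kernel
theorem cb41 : ckb 16 656 = true := by decide +kernel
theorem cb42 : ckb 16 672 = true := by decide +kernel
theorem cb43 : ckb 16 688 = true := by decide +kernel
theorem cb44 : ckb 16 704 = true := by decide +kernel
theorem cb45 : ckb 16 720 = true := by decide +kernel
theorem cb46 : ckb 16 736 = true := by decide +kernel
theorem cb47 : ckb 16 752 = true := by decide +kernel

end Pool.Agent.H68.L7
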