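import Pool.Agent.H68.L7.C3

/-! Kernel computation. -/

set_option autoImplicit false
set_option maxRecDepth 100000

namespace Pool.Agent.H68.L7

theorem cb56 : ckb 16 896 = true := by decide +kernel
theorem cb57 : ckb 16 912 = true := by decide +kernel
theorem cb58 : ckb 16 928 = true := by decide +kernel
theorem cb59 : ckb 16 944 = true := by decide +kernel
theorem cb60 : ckb 16 960 = true := by decide +kernel
theorem cb61 : ckb 16 976 = true := by decide +kernel
theorem cb62 : ckb 16 992 = true := by decide +kernel
theorem cb63 : ckb 16 1008 = true := by decide +kernel

end Pool.Agent.H68.L7
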