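import Pool.Agent.H68.L7.K3

/-! Kernel computation. -/

set_option autoImplicit false
set_option maxRecDepth 100000
set_option maxHeartbeats 4000000

namespace Pool.Agent.H68.L7

/-- representatives -/
def g7 : List (List ℕ) := [[958539, 958538, 958537], [958536, 958533, 958532], [958531, 958530, 958529], [958528, 958523, 958522], [958521, 958520, 958515], [958514, 958513, 958512], [958505, 958504, 958499], [958498, 958497, 958496], [958483, 958482, 958481], [958480, 958465, 958464], [951596, 951593, 951592], [951590, 951589, 951588], [951585, 951584, 951565], [951564, 951562, 951561], [951560, 951559, 951558], [951557, 951556, 951555], [951554, 951553, 951552], [951484, 951480, 951476], [951472, 951468, 951467], [951466, 951464, 951462], [951460, 951459, 951458], [951456, 951453, 951452], [951449, 951448, 951445], [951444, 951442, 951441], [951440, 951436, 951435], [951434, 951433, 951432], [951430, 951429, 951428], [951427, 951426, 951425], [951424, 951326, 951324], [951322, 951320, 951318]]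

theorem kk7 : ∀ l ∈ g7, chkl l = true := by
  simp only [g7, List.forall_mem_cons, List.not_mem_nil, false_implies, implies_true, and_true]
  exact ⟨by decide +kernel, by decide +kernel, by decide +kernel, by decide +kernel, by decide +kernel, by decide +kernel, by decide +kernel, by decide +kernel, by decide +kernel, by decide +kernel, by decide +kernel, by decide +kernel, by decide +kernel, by decide +kernel, by decide +kernel, by decide +kernel, by decide +kernel, by decide +kernel, by decide +kernel, by decide +kernel, by decide +kernel, by decide +kernel, by decide +kernel, by decide +kernel, by decide +kernel, by decide +kernel, by decide +kernel, by decide +kernel, by decide +kernel, by decide +kernel⟩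

end Pool.Agent.H68.L7
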